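import Pool.Agent.H47.QTetraEnd

set_option autoImplicit false

namespace Pool.Agent.H47.QTetra

open Module

/-- No module structure for the q-tetrahedron algebra, for each of the four `q` with
`q ^ 2 + q⁻¹ ^ 2 = 17 / 4`. -/
theorem no_module_all (q : ℂ) (hq0 : q ≠ 0) (hqq : q ^ 2 + q⁻¹ ^ 2 = 17 / 4)
    (X : ZMod 4 → ZMod 4 → Module.End ℂ (Fin 4 → ℂ))
    (hinv : ∀ i j : ZMod 4, j - i = 2 → X i j * X j i = 1)
    (hq : ∀ i j k : ZMod 4,
      ((j - i = 1 ∧ k - j = 1) ∨ (j - i = 1 ∧ k - j = 2) ∨ (j - i = 2 ∧ k - j = 1)) →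
      q • (X i j * X j k) - q⁻¹ • (X j k * X i j)
        = (q - q⁻¹) • (1 : Module.End ℂ (Fin 4 → ℂ)))
    (hA : ∃ a b c : ℂ, LA = a • X 0 1 + b • X 1 2 + c • (1 : Module.End ℂ (Fin 4 → ℂ)))
    (hB : ∃ a b c : ℂ, LB = a • X 2 3 + b • X 3 0 + c • (1 : Module.End ℂ (Fin 4 → ℂ))) :
    False := by
  have hfac : (q - 2) * (q + 2) * ((q - 2⁻¹) * (q + 2⁻¹)) = 0 := by
    have h1 : q ^ 2 * (q ^ 2 + q⁻¹ ^ 2) = q ^ 2 * (17 / 4) := by rw [hqq]
    have h2 : q ^ 2 * (q ^ 2 + q⁻¹ ^ 2) = q ^ 4 + 1 := by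
      field_simp
    rw [h2] at h1
    linear_combination h1
  rcases mul_eq_zero.mp hfac with h | h <;> rcases mul_eq_zero.mp h with h | h
  · have hq2 : q = 2 := by linear_combination h
    subst hq2
    exact no_module X hinv hq hA hB
  · have hq2 : q = -2 := by linear_combination h
    subst hq2
    refine no_module X hinv ?_ hA hB
    intro i j k hijk
    have := congrArg (fun T => (-1 : ℂ) • T) (hq i j k hijk)
    simp only [smul_sub, smul_smul] at this
    convert this using 2 <;> norm_num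
  · have hq2 : q = 2⁻¹ := by linear_combination h
    subst hq2
    refine no_module (fun i j => X (2 - j) (2 - i)) ?_ ?_ ?_ ?_
    · intro i j hij
      exact hinv _ _ (by rw [← hij]; ring)
    · intro i j k hijk
      have hr := hq (2 - k) (2 - j) (2 - i) (by
        have e1 : 2 - j - (2 - k) = k - j := by ring
        have e2 : 2 - i - (2 - j) = j - i := by ring
        rw [e1, e2]; tauto)
      have := congrArg (fun T => (-1 : ℂ) • T) hr
      simp only [smul_sub, smul_smul] at this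
      rw [inv_inv] at this
      rw [show (2 : ℂ) • (X (2 - j) (2 - i) * X (2 - k) (2 - j)) -
          (2 : ℂ)⁻¹ • (X (2 - k) (2 - j) * X (2 - j) (2 - i)) =
          ((-1 : ℂ) * 2⁻¹) • (X (2 - k) (2 - j) * X (2 - j) (2 - i)) -
          ((-1 : ℂ) * 2) • (X (2 - j) (2 - i) * X (2 - k) (2 - j)) by module, this]
      congr 1
      ring
    · obtain ⟨a, b, c, h⟩ := hA
      refine ⟨b, a, c, ?_⟩
      rw [h]
      have e1 : (2 : ZMod 4) - 1 = 1 := by decide
      have e2 : (2 : ZMod 4) - 0 = 2 := by decide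
      have e3 : (2 : ZMod 4) - 2 = 0 := by decide
      simp only [e1, e2, e3]
      abel
    · obtain ⟨a, b, c, h⟩ := hB
      refine ⟨b, a, c, ?_⟩
      rw [h]
      have e1 : (2 : ZMod 4) - 3 = 3 := by decide
      have e2 : (2 : ZMod 4) - 2 = 0 := by decide
      have e3 : (2 : ZMod 4) - 0 = 2 := by decide
      simp only [e1, e2, e3]
      abel
  · have hq2 : q = -2⁻¹ := by linear_combination h
    subst hq2
    refine no_module (fun i j => X (2 - j) (2 - i)) ?_ ?_ ?_ ?_
    · intro i j hij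
      exact hinv _ _ (by rw [← hij]; ring)
    · intro i j k hijk
      have hr := hq (2 - k) (2 - j) (2 - i) (by
        have e1 : 2 - j - (2 - k) = k - j := by ring
        have e2 : 2 - i - (2 - j) = j - i := by ring
        rw [e1, e2]; tauto)
      have e3 : (-(2 : ℂ)⁻¹)⁻¹ = -2 := by norm_num
      rw [e3] at hr
      rw [show (2 : ℂ) • (X (2 - j) (2 - i) * X (2 - k) (2 - j)) -
          (2 : ℂ)⁻¹ • (X (2 - k) (2 - j) * X (2 - j) (2 - i)) =
          (-(2 : ℂ)⁻¹) • (X (2 - k) (2 - j) * X (2 - j) (2 - i)) -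
          (-2 : ℂ) • (X (2 - j) (2 - i) * X (2 - k) (2 - j)) by module, hr]
      congr 1
      ring
    · obtain ⟨a, b, c, h⟩ := hA
      refine ⟨b, a, c, ?_⟩
      rw [h]
      have e1 : (2 : ZMod 4) - 1 = 1 := by decide
      have e2 : (2 : ZMod 4) - 0 = 2 := by decide
      have e3 : (2 : ZMod 4) - 2 = 0 := by decide
      simp only [e1, e2, e3]
      abel
    · obtain ⟨a, b, c, h⟩ := hB
      refine ⟨b, a, c, ?_⟩
      rw [h]
      have e1 : (2 : ZMod 4) - 3 = 3 := by decide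
      have e2 : (2 : ZMod 4) - 2 = 0 := by decide
      have e3 : (2 : ZMod 4) - 0 = 2 := by decide
      simp only [e1, e2, e3]
      abel

/-- The scalar `β` is determined by the first tridiagonal relation. -/
theorem beta_eq (β γ ϱ : ℂ)
    (h : LA * (LA ^ 2 * LB + LB * LA ^ 2 - β • (LA * LB * LA) - γ • (LA * LB + LB * LA) - ϱ • LB)
      = (LA ^ 2 * LB + LB * LA ^ 2 - β • (LA * LB * LA) - γ • (LA * LB + LB * LA) - ϱ • LB) * LA) :
    β = 17 / 4 := by
  have h10 := congrFun (LinearMap.congr_fun h ![1, 0, 0, 0]) 1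
  have h21 := congrFun (LinearMap.congr_fun h ![0, 1, 0, 0]) 2
  have h32 := congrFun (LinearMap.congr_fun h ![0, 0, 1, 0]) 3
  simp only [pow_two, Module.End.mul_apply, LinearMap.sub_apply, LinearMap.add_apply,
    LinearMap.smul_apply, LA_apply, LB_apply] at h10 h21 h32
  simp at h10 h21 h32
  have k1 : (1 : ℂ) * (4352 - 1024 * β - 80 * γ - ϱ) = 0 := by linear_combination (-1 / (48 * 21)) * h10
  have k2 : (1 : ℂ) * (272 - 64 * β - 20 * γ - ϱ) = 0 := by linear_combination (-1 / (12 * 20)) * h21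
  have k3 : (1 : ℂ) * (17 - 4 * β - 5 * γ - ϱ) = 0 := by linear_combination (-1 / (3 * 16)) * h32
  linear_combination (-1 / 720) * (k1 - k2) + (4 / 720) * (k2 - k3)

end Pool.Agent.H47.QTetra
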