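import Pool.Agent.H47.QTetraNo

set_option autoImplicit false

namespace Pool.Agent.H47.QTetra

open Module

theorem upper (M : Matrix (Fin 4) (Fin 4) ℂ) (α : ℂ)
    (r : (2 : ℂ) • (M * MA) - (2 : ℂ)⁻¹ • (MA * M) = ((3 / 2 : ℂ) * α) • 1) :
    M = !![α / 64, M 0 1, 0, 0; 0, α / 16, M 1 2, 0; 0, 0, α / 4, M 2 3; 0, 0, 0, α] := by
  have e := fun i j => congrFun (congrFun r i) j
  simp only [Matrix.sub_apply, Matrix.smul_apply, Matrix.mul_apply, Fin.sum_univ_four,
    smul_eq_mul] at e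
  have z00 := e 0 0
  have z02 := e 0 2
  have z03 := e 0 3
  have z10 := e 1 0
  have z11 := e 1 1
  have z13 := e 1 3
  have z20 := e 2 0
  have z21 := e 2 1
  have z22 := e 2 2
  have z30 := e 3 0
  have z31 := e 3 1
  have z32 := e 3 2
  have z33 := e 3 3
  simp [MA] at z00 z02 z03 z10 z11 z13 z20 z21 z22 z30 z31 z32 z33
  ext i j
  fin_cases i <;> fin_cases j <;> simp
  · linear_combination (1 / 96) * z00
  · linear_combination (-1 / 24) * z02
  · linear_combination (-1 / 30) * z03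
  · linear_combination (1 / 120) * z10
  · linear_combination (1 / 24) * z11
  · linear_combination (-1 / 6) * z13
  · linear_combination (1 / 126) * z20
  · linear_combination (1 / 30) * z21
  · linear_combination (1 / 6) * z22
  · linear_combination (2 / 255) * z30
  · linear_combination (2 / 63) * z31
  · linear_combination (2 / 15) * z32
  · linear_combination (2 / 3) * z33

theorem lower (M : Matrix (Fin 4) (Fin 4) ℂ) (α : ℂ)
    (r : (2 : ℂ) • (MA * M) - (2 : ℂ)⁻¹ • (M * MA) = ((3 / 2 : ℂ) * α) • 1) :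
    M = !![α / 64, 0, 0, 0; M 1 0, α / 16, 0, 0; 0, M 2 1, α / 4, 0; 0, 0, M 3 2, α] := by
  have hA : MA.transpose = MA := by
    ext i j
    fin_cases i <;> fin_cases j <;> simp [MA]
  have h := congrArg Matrix.transpose r
  rw [Matrix.transpose_sub, Matrix.transpose_smul, Matrix.transpose_smul, Matrix.transpose_smul,
    Matrix.transpose_mul, Matrix.transpose_mul, hA, Matrix.transpose_one] at h
  have h2 := upper M.transpose α h
  have h3 := congrArg Matrix.transpose h2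
  rw [Matrix.transpose_transpose] at h3
  have e := fun i j => congrFun (congrFun h3 i) j
  ext i j
  rw [e i j]
  fin_cases i <;> fin_cases j <;> simp

/-- Case `A = α x01`. -/
theorem caseA (m12 m23 m30 : Matrix (Fin 4) (Fin 4) ℂ) (α β β' δ : ℂ) (hα : α ≠ 0)
    (hB : MB = β • m23 + β' • m30 + δ • (1 : Matrix (Fin 4) (Fin 4) ℂ))
    (r5 : (2 : ℂ) • (MA * m12) - (2 : ℂ)⁻¹ • (m12 * MA) = ((3 / 2 : ℂ) * α) • 1)
    (r8 : (2 : ℂ) • (m30 * MA) - (2 : ℂ)⁻¹ • (MA * m30) = ((3 / 2 : ℂ) * α) • 1)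
    (r6 : (2 : ℂ) • (m12 * m23) - (2 : ℂ)⁻¹ • (m23 * m12) = (3 / 2 : ℂ) • 1)
    (r7 : (2 : ℂ) • (m23 * m30) - (2 : ℂ)⁻¹ • (m30 * m23) = (3 / 2 : ℂ) • 1) : False := by
  have u := upper m30 α r8
  have l := lower m12 α r5
  generalize m30 0 1 = z1 at u
  generalize m30 1 2 = z2 at u
  generalize m30 2 3 = z3 at u
  generalize m12 1 0 = l1 at l
  generalize m12 2 1 = l2 at l
  generalize m12 3 2 = l3 at l
  have hn : β • m23 = MB - β' • m30 - δ • (1 : Matrix (Fin 4) (Fin 4) ℂ) := by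
    rw [hB]; module
  have r7' : (2 : ℂ) • ((MB - β' • m30 - δ • (1 : Matrix (Fin 4) (Fin 4) ℂ)) * m30)
      - (2 : ℂ)⁻¹ • (m30 * (MB - β' • m30 - δ • (1 : Matrix (Fin 4) (Fin 4) ℂ)))
      = (β * (3 / 2 : ℂ)) • 1 := by
    rw [← hn, mul_smul, ← r7, Matrix.smul_mul, Matrix.mul_smul]
    module
  have r6' : (2 : ℂ) • (m12 * (MB - β' • m30 - δ • (1 : Matrix (Fin 4) (Fin 4) ℂ)))
      - (2 : ℂ)⁻¹ • ((MB - β' • m30 - δ • (1 : Matrix (Fin 4) (Fin 4) ℂ)) * m12)
      = (β * (3 / 2 : ℂ)) • 1 := by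
    rw [← hn, mul_smul, ← r6, Matrix.smul_mul, Matrix.mul_smul]
    module
  have e6 := fun i j => congrFun (congrFun r6' i) j
  have e7 := fun i j => congrFun (congrFun r7' i) j
  simp only [Matrix.sub_apply, Matrix.smul_apply, Matrix.mul_apply, Fin.sum_univ_four,
    Matrix.add_apply, smul_eq_mul] at e6 e7
  rw [u, l] at e6
  rw [u] at e7
  have a01 := e7 0 1
  have a12 := e7 1 2
  have a23 := e7 2 3
  have a02 := e7 0 2
  have a13 := e7 1 3
  have b00 := e6 0 0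
  have b11 := e6 1 1
  simp [MB] at a01 a12 a23 a02 a13 b00 b11
  have k1 : z1 * (5 * β' * α + 64 * δ) = 5 * α := by linear_combination (-128 / 3) * a01
  have k2 : z2 * (5 * β' * α + 16 * δ) = 25 * α := by linear_combination (-32 / 3) * a12
  have k3 : z3 * (5 * β' * α + 4 * δ) = 105 * α := by linear_combination (-8 / 3) * a23
  have k12 : 4 * z2 - 5 * z1 = 3 * β' * z1 * z2 := by linear_combination 2 * a02
  have z1n : z1 ≠ 0 := by
    rintro rfl
    rw [zero_mul] at k1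
    exact hα (by linear_combination (-1 / 5) * k1)
  have z2n : z2 ≠ 0 := by
    rintro rfl
    rw [zero_mul] at k2
    exact hα (by linear_combination (-1 / 25) * k2)
  have hδ : δ = 0 := by
    have h : z1 * z2 * δ = 0 := by
      linear_combination (1 / 48) * ((4 / 5) * z2 * k1 - (1 / 5) * z1 * k2 + α * k12)
    rcases mul_eq_zero.mp h with h | h
    · rcases mul_eq_zero.mp h with h | h
      · exact absurd h z1n
      · exact absurd h z2n
    · exact h
  subst hδ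
  have t1 : z1 * β' = 1 := by
    have h : α * (z1 * β' - 1) = 0 := by linear_combination (1 / 5) * k1
    rcases mul_eq_zero.mp h with h | h
    · exact absurd h hα
    · linear_combination h
  have hβ' : β' ≠ 0 := by
    rintro rfl
    rw [mul_zero] at t1
    exact zero_ne_one t1
  have t2 : z2 * β' = 5 := by
    have h : α * (z2 * β' - 5) = 0 := by linear_combination (1 / 5) * k2
    rcases mul_eq_zero.mp h with h | h
    · exact absurd h hα
    · linear_combination h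
  have f00 : (3 / 2) * (-(β' * α ^ 2 / 4096)) = β * (3 / 2) := by
    linear_combination b00 - (1 / 2) * l1 * t1
  have f11 : (3 / 2) * (-(β' * α ^ 2 / 256)) = β * (3 / 2) := by
    linear_combination b11 + 2 * l1 * t1 - (1 / 2) * l2 * t2
  have hz : β' * α ^ 2 = 0 := by
    linear_combination (-4096 * 2 / 45) * (f11 - f00)
  exact mul_ne_zero hβ' (pow_ne_zero 2 hα) hz

/-- Case `A = α x12`. -/
theorem caseB (m01 m23 m30 : Matrix (Fin 4) (Fin 4) ℂ) (α β β' δ : ℂ) (hα : α ≠ 0)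
    (hB : MB = β • m23 + β' • m30 + δ • (1 : Matrix (Fin 4) (Fin 4) ℂ))
    (r5 : (2 : ℂ) • (m01 * MA) - (2 : ℂ)⁻¹ • (MA * m01) = ((3 / 2 : ℂ) * α) • 1)
    (r6 : (2 : ℂ) • (MA * m23) - (2 : ℂ)⁻¹ • (m23 * MA) = ((3 / 2 : ℂ) * α) • 1)
    (r8 : (2 : ℂ) • (m30 * m01) - (2 : ℂ)⁻¹ • (m01 * m30) = (3 / 2 : ℂ) • 1)
    (r7 : (2 : ℂ) • (m23 * m30) - (2 : ℂ)⁻¹ • (m30 * m23) = (3 / 2 : ℂ) • 1) : False := by
  have u := upper m01 α r5
  have l := lower m23 α r6
  generalize m01 0 1 = l1 at u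
  generalize m01 1 2 = l2 at u
  generalize m01 2 3 = l3 at u
  generalize m23 1 0 = z1 at l
  generalize m23 2 1 = z2 at l
  generalize m23 3 2 = z3 at l
  have hn : β' • m30 = MB - β • m23 - δ • (1 : Matrix (Fin 4) (Fin 4) ℂ) := by
    rw [hB]; module
  have r7' : (2 : ℂ) • (m23 * (MB - β • m23 - δ • (1 : Matrix (Fin 4) (Fin 4) ℂ)))
      - (2 : ℂ)⁻¹ • ((MB - β • m23 - δ • (1 : Matrix (Fin 4) (Fin 4) ℂ)) * m23)
      = (β' * (3 / 2 : ℂ)) • 1 := by
    rw [← hn, mul_smul, ← r7, Matrix.smul_mul, Matrix.mul_smul]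
    module
  have r8' : (2 : ℂ) • ((MB - β • m23 - δ • (1 : Matrix (Fin 4) (Fin 4) ℂ)) * m01)
      - (2 : ℂ)⁻¹ • (m01 * (MB - β • m23 - δ • (1 : Matrix (Fin 4) (Fin 4) ℂ)))
      = (β' * (3 / 2 : ℂ)) • 1 := by
    rw [← hn, mul_smul, ← r8, Matrix.smul_mul, Matrix.mul_smul]
    module
  have e6 := fun i j => congrFun (congrFun r8' i) j
  have e7 := fun i j => congrFun (congrFun r7' i) j
  simp only [Matrix.sub_apply, Matrix.smul_apply, Matrix.mul_apply, Fin.sum_univ_four,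
    smul_eq_mul] at e6 e7
  rw [u, l] at e6
  rw [l] at e7
  have a01 := e7 1 0
  have a12 := e7 2 1
  have a23 := e7 3 2
  have a02 := e7 2 0
  have b00 := e6 0 0
  have b11 := e6 1 1
  simp [MB] at a01 a12 a23 a02 b00 b11
  have k1 : z1 * (5 * β * α + 64 * δ) = 105 * α := by linear_combination (-128 / 3) * a01
  have k2 : z2 * (5 * β * α + 16 * δ) = 100 * α := by linear_combination (-32 / 3) * a12
  have k12 : 42 * z2 - 10 * z1 = (3 / 2) * β * z1 * z2 := by linear_combination a02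
  have z1n : z1 ≠ 0 := by
    rintro rfl
    rw [zero_mul] at k1
    exact hα (by linear_combination (-1 / 105) * k1)
  have z2n : z2 ≠ 0 := by
    rintro rfl
    rw [zero_mul] at k2
    exact hα (by linear_combination (-1 / 100) * k2)
  have hδ : δ = 0 := by
    have h : z1 * z2 * δ = 0 := by
      linear_combination (1 / 24) * ((2 / 5) * z2 * k1 - (1 / 10) * z1 * k2 + α * k12)
    rcases mul_eq_zero.mp h with h | h
    · rcases mul_eq_zero.mp h with h | h
      · exact absurd h z1n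
      · exact absurd h z2n
    · exact h
  subst hδ
  have t1 : z1 * β = 21 := by
    have h : α * (z1 * β - 21) = 0 := by linear_combination (1 / 5) * k1
    rcases mul_eq_zero.mp h with h | h
    · exact absurd h hα
    · linear_combination h
  have hβ : β ≠ 0 := by
    rintro rfl
    rw [mul_zero] at t1
    norm_num at t1
  have t2 : z2 * β = 20 := by
    have h : α * (z2 * β - 20) = 0 := by linear_combination (1 / 5) * k2
    rcases mul_eq_zero.mp h with h | h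
    · exact absurd h hα
    · linear_combination h
  have f00 : (3 / 2) * (-(β * α ^ 2 / 4096)) = β' * (3 / 2) := by
    linear_combination b00 - (1 / 2) * l1 * t1
  have f11 : (3 / 2) * (-(β * α ^ 2 / 256)) = β' * (3 / 2) := by
    linear_combination b11 + 2 * l1 * t1 - (1 / 2) * l2 * t2
  have hz : β * α ^ 2 = 0 := by
    linear_combination (-4096 * 2 / 45) * (f11 - f00)
  exact mul_ne_zero hβ (pow_ne_zero 2 hα) hz

theorem MA_toMatrix : LinearMap.toMatrixAlgEquiv' LA = MA := by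
  simp [LA, LinearMap.toMatrixAlgEquiv']

theorem MB_toMatrix : LinearMap.toMatrixAlgEquiv' LB = MB := by
  simp [LB, LinearMap.toMatrixAlgEquiv']

/-- No module structure for the q-tetrahedron algebra with `q = 2`. -/
theorem no_module (X : ZMod 4 → ZMod 4 → Module.End ℂ (Fin 4 → ℂ))
    (hinv : ∀ i j : ZMod 4, j - i = 2 → X i j * X j i = 1)
    (hq : ∀ i j k : ZMod 4,
      ((j - i = 1 ∧ k - j = 1) ∨ (j - i = 1 ∧ k - j = 2) ∨ (j - i = 2 ∧ k - j = 1)) →
      (2 : ℂ) • (X i j * X j k) - (2 : ℂ)⁻¹ • (X j k * X i j)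
        = ((2 : ℂ) - (2 : ℂ)⁻¹) • (1 : Module.End ℂ (Fin 4 → ℂ)))
    (hA : ∃ a b c : ℂ, LA = a • X 0 1 + b • X 1 2 + c • (1 : Module.End ℂ (Fin 4 → ℂ)))
    (hB : ∃ a b c : ℂ, LB = a • X 2 3 + b • X 3 0 + c • (1 : Module.End ℂ (Fin 4 → ℂ))) :
    False := by
  obtain ⟨a, a', c, hA⟩ := hA
  obtain ⟨b, b', d, hB⟩ := hB
  have i13 : X 1 3 * X 3 1 = 1 := hinv 1 3 (by decide)
  have i31 : X 3 1 * X 1 3 = 1 := hinv 3 1 (by decide)
  have r1 := hq 0 1 3 (by decide)
  have r2 := hq 3 1 2 (by decide)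
  have r3 := hq 1 3 0 (by decide)
  have r4 := hq 2 3 1 (by decide)
  have r5 := hq 0 1 2 (by decide)
  have r6 := hq 1 2 3 (by decide)
  have r7 := hq 2 3 0 (by decide)
  have r8 := hq 3 0 1 (by decide)
  -- conjugated relations
  have r2' : (2 : ℂ) • (X 1 2 * X 1 3) - (2 : ℂ)⁻¹ • (X 1 3 * X 1 2)
      = ((2 : ℂ) - (2 : ℂ)⁻¹) • (X 1 3 * X 1 3) := by
    have h := congrArg (fun T => X 1 3 * T * X 1 3) r2
    simp only [mul_sub, sub_mul, mul_smul_comm, smul_mul_assoc, mul_one] at h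
    have h1 : X 1 3 * (X 3 1 * X 1 2) * X 1 3 = X 1 2 * X 1 3 := by
      rw [← mul_assoc (X 1 3), i13, one_mul]
    have h2 : X 1 3 * (X 1 2 * X 3 1) * X 1 3 = X 1 3 * X 1 2 := by
      rw [mul_assoc, mul_assoc (X 1 2), i31, mul_one]
    rw [h1, h2] at h
    exact h
  have r4' : (2 : ℂ) • (X 1 3 * X 2 3) - (2 : ℂ)⁻¹ • (X 2 3 * X 1 3)
      = ((2 : ℂ) - (2 : ℂ)⁻¹) • (X 1 3 * X 1 3) := by
    have h := congrArg (fun T => X 1 3 * T * X 1 3) r4
    simp only [mul_sub, sub_mul, mul_smul_comm, smul_mul_assoc, mul_one] at h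
    have h1 : X 1 3 * (X 2 3 * X 3 1) * X 1 3 = X 1 3 * X 2 3 := by
      rw [mul_assoc, mul_assoc (X 2 3), i31, mul_one]
    have h2 : X 1 3 * (X 3 1 * X 2 3) * X 1 3 = X 2 3 * X 1 3 := by
      rw [← mul_assoc (X 1 3), i13, one_mul]
    rw [h1, h2] at h
    exact h
  have s1 : (2 : ℂ) • (LA * X 1 3) - (2 : ℂ)⁻¹ • (X 1 3 * LA)
      = ((2 : ℂ) - (2 : ℂ)⁻¹) • (a • 1 + a' • (X 1 3 * X 1 3) + c • X 1 3) := by
    rw [hA]
    simp only [mul_add, add_mul, mul_smul_comm, smul_mul_assoc, mul_one, one_mul]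
    have : (2 : ℂ) • (a • (X 0 1 * X 1 3) + a' • (X 1 2 * X 1 3) + c • X 1 3)
        - (2 : ℂ)⁻¹ • (a • (X 1 3 * X 0 1) + a' • (X 1 3 * X 1 2) + c • X 1 3)
        = a • ((2 : ℂ) • (X 0 1 * X 1 3) - (2 : ℂ)⁻¹ • (X 1 3 * X 0 1))
          + a' • ((2 : ℂ) • (X 1 2 * X 1 3) - (2 : ℂ)⁻¹ • (X 1 3 * X 1 2))
          + c • (((2 : ℂ) - (2 : ℂ)⁻¹) • X 1 3) := by
      module
    rw [this, r1, r2']
    module
  have s2 : (2 : ℂ) • (X 1 3 * LB) - (2 : ℂ)⁻¹ • (LB * X 1 3)
      = ((2 : ℂ) - (2 : ℂ)⁻¹) • (b' • 1 + b • (X 1 3 * X 1 3) + d • X 1 3) := by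
    rw [hB]
    simp only [mul_add, add_mul, mul_smul_comm, smul_mul_assoc, mul_one, one_mul]
    have : (2 : ℂ) • (b • (X 1 3 * X 2 3) + b' • (X 1 3 * X 3 0) + d • X 1 3)
        - (2 : ℂ)⁻¹ • (b • (X 2 3 * X 1 3) + b' • (X 3 0 * X 1 3) + d • X 1 3)
        = b • ((2 : ℂ) • (X 1 3 * X 2 3) - (2 : ℂ)⁻¹ • (X 2 3 * X 1 3))
          + b' • ((2 : ℂ) • (X 1 3 * X 3 0) - (2 : ℂ)⁻¹ • (X 3 0 * X 1 3))
          + d • (((2 : ℂ) - (2 : ℂ)⁻¹) • X 1 3) := by
      module
    rw [this, r3, r4']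
    module
  -- transfer to matrices
  have hBm := congrArg LinearMap.toMatrixAlgEquiv' hB
  have r5m := congrArg LinearMap.toMatrixAlgEquiv' r5
  have r6m := congrArg LinearMap.toMatrixAlgEquiv' r6
  have r7m := congrArg LinearMap.toMatrixAlgEquiv' r7
  have r8m := congrArg LinearMap.toMatrixAlgEquiv' r8
  have hAm := congrArg LinearMap.toMatrixAlgEquiv' hA
  rw [MA_toMatrix] at hAm
  rw [MB_toMatrix] at hBm
  simp only [map_add, map_sub, map_smul, map_mul, map_one] at hBm r5m r6m r7m r8m hAm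
  have c32 : ((2 : ℂ) - (2 : ℂ)⁻¹) = 3 / 2 := by norm_num
  rw [c32] at r5m r6m r7m r8m
  rcases split (X 1 3) (X 3 1) i31 a a' c b b' d s1 s2 with ⟨ha, ha', hc⟩ | ⟨ha, ha', hc⟩
  · subst ha' hc
    rw [zero_smul, zero_smul, add_zero, add_zero] at hAm
    apply caseA _ _ _ a b b' d ha hBm _ _ r6m r7m
    · rw [hAm, Matrix.smul_mul, Matrix.mul_smul]
      have := congrArg (fun T => a • T) r5m
      simp only [smul_sub] at this
      rw [smul_comm (2 : ℂ) a, smul_comm (2 : ℂ)⁻¹ a, this]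
      module
    · rw [hAm, Matrix.smul_mul, Matrix.mul_smul]
      have := congrArg (fun T => a • T) r8m
      simp only [smul_sub] at this
      rw [smul_comm (2 : ℂ) a, smul_comm (2 : ℂ)⁻¹ a, this]
      module
  · subst ha hc
    rw [zero_smul, zero_smul, zero_add, add_zero] at hAm
    apply caseB _ _ _ a' b b' d ha' hBm _ _ r8m r7m
    · rw [hAm, Matrix.smul_mul, Matrix.mul_smul]
      have := congrArg (fun T => a' • T) r5m
      simp only [smul_sub] at this
      rw [smul_comm (2 : ℂ) a', smul_comm (2 : ℂ)⁻¹ a', this]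
      module
    · rw [hAm, Matrix.smul_mul, Matrix.mul_smul]
      have := congrArg (fun T => a' • T) r6m
      simp only [smul_sub] at this
      rw [smul_comm (2 : ℂ) a', smul_comm (2 : ℂ)⁻¹ a', this]
      module

end Pool.Agent.H47.QTetra
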