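import Pool.Agent.H47.QTetraPair

set_option autoImplicit false

namespace Pool.Agent.H47.QTetra

open Module

theorem perm_check : ∀ a b c e : Fin 4, a ≠ b → a ≠ c → a ≠ e → b ≠ c → b ≠ e → c ≠ e →
    4 * ((![64, 16, 4, 1] : Fin 4 → ℤ) a - (![64, 16, 4, 1] : Fin 4 → ℤ) e)
      = 21 * ((![64, 16, 4, 1] : Fin 4 → ℤ) b - (![64, 16, 4, 1] : Fin 4 → ℤ) c) →
    (a = 0 ∧ b = 1 ∧ c = 2 ∧ e = 3) ∨ (a = 3 ∧ b = 2 ∧ c = 1 ∧ e = 0) := by
  decide

theorem th_cast (i : Fin 4) : th i = (((![64, 16, 4, 1] : Fin 4 → ℤ) i : ℤ) : ℂ) := by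
  fin_cases i <;> simp [th]

theorem F_cases (F : Fin 4 → ℂ) (hF : 4 * (F 0 - F 3) = 21 * (F 1 - F 2))
    (h : ∀ j : Fin 4, ∃ i : Fin 4, F i = th j) :
    (F 0 = 64 ∧ F 1 = 16 ∧ F 2 = 4 ∧ F 3 = 1) ∨ (F 0 = 1 ∧ F 1 = 4 ∧ F 2 = 16 ∧ F 3 = 64) := by
  choose σ hσ using h
  have hinj : Function.Injective σ := by
    intro i j hij
    apply th_inj
    rw [← hσ i, ← hσ j, hij]
  have hbij : Function.Bijective σ := Finite.injective_iff_bijective.mp hinj
  obtain ⟨τ, hτ1, hτ2⟩ := Function.bijective_iff_has_inverse.mp hbij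
  have hτ : ∀ i, F i = th (τ i) := by
    intro i
    rw [← hσ (τ i), hτ2 i]
  have hτinj : Function.Injective τ := hτ2.injective
  have hne : ∀ i j, i ≠ j → τ i ≠ τ j := fun i j hij h => hij (hτinj h)
  have h2 := hF
  rw [hτ 0, hτ 1, hτ 2, hτ 3, th_cast, th_cast, th_cast, th_cast] at h2
  have h3 : 4 * ((![64, 16, 4, 1] : Fin 4 → ℤ) (τ 0) - (![64, 16, 4, 1] : Fin 4 → ℤ) (τ 3))
      = 21 * ((![64, 16, 4, 1] : Fin 4 → ℤ) (τ 1) - (![64, 16, 4, 1] : Fin 4 → ℤ) (τ 2)) := by
    exact_mod_cast h2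
  rcases perm_check (τ 0) (τ 1) (τ 2) (τ 3) (hne _ _ (by decide)) (hne _ _ (by decide))
    (hne _ _ (by decide)) (hne _ _ (by decide)) (hne _ _ (by decide)) (hne _ _ (by decide)) h3 with
    ⟨h0, h1, h2, h3⟩ | ⟨h0, h1, h2, h3⟩
  · left
    rw [hτ 0, hτ 1, hτ 2, hτ 3, h0, h1, h2, h3]
    simp [th]
  · right
    rw [hτ 0, hτ 1, hτ 2, hτ 3, h0, h1, h2, h3]
    simp [th]

/-- Every eigenvector of `As` has all coordinates nonzero. -/
theorem eig_ne (v : Fin 4 → ℂ) (hv : v ≠ 0) (g : ℂ) (h : LB v = g • v) : ∀ j, v j ≠ 0 := by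
  rw [LB_apply] at h
  have e0 : v 1 = g * v 0 := by simpa using congrFun h 0
  have e1 : 21 * v 0 + 5 * v 2 = g * v 1 := by simpa using congrFun h 1
  have e2 : 20 * v 1 + 21 * v 3 = g * v 2 := by simpa using congrFun h 2
  have e3 : 16 * v 2 = g * v 3 := by simpa using congrFun h 3
  have f2 : v 2 = (g ^ 2 - 21) / 5 * v 0 := by
    rw [e0] at e1; linear_combination (1 / 5) * e1
  have f3 : v 3 = g * (g ^ 2 - 121) / 105 * v 0 := by
    rw [e0, f2] at e2; linear_combination (1 / 21) * e2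
  have h0 : v 0 ≠ 0 := by
    intro h0
    apply hv
    ext j
    fin_cases j
    · simpa using h0
    · simp [e0, h0]
    · simp [f2, h0]
    · simp [f3, h0]
  have hg : (g ^ 2 - 441) * (g ^ 2 - 16) = 0 := by
    have : (g ^ 2 - 441) * (g ^ 2 - 16) * v 0 = 0 := by
      rw [f2, f3] at e3
      linear_combination (-105) * e3
    rcases mul_eq_zero.mp this with h | h
    · exact h
    · exact absurd h h0
  have hg0 : g ≠ 0 := by
    rintro rfl
    norm_num at hg
  intro j
  fin_cases j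
  · exact h0
  · change v 1 ≠ 0
    rw [e0]; exact mul_ne_zero hg0 h0
  · change v 2 ≠ 0
    rw [f2]
    apply mul_ne_zero _ h0
    rcases mul_eq_zero.mp hg with h | h
    · have : g ^ 2 = 441 := by linear_combination h
      rw [this]; norm_num
    · have : g ^ 2 = 16 := by linear_combination h
      rw [this]; norm_num
  · change v 3 ≠ 0
    rw [f3]
    apply mul_ne_zero _ h0
    rcases mul_eq_zero.mp hg with h | h
    · have : g ^ 2 = 441 := by linear_combination h
      rw [this]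
      apply div_ne_zero _ (by norm_num)
      exact mul_ne_zero hg0 (by norm_num)
    · have : g ^ 2 = 16 := by linear_combination h
      rw [this]
      apply div_ne_zero _ (by norm_num)
      exact mul_ne_zero hg0 (by norm_num)

/-- The chain `w k`. -/
noncomputable def w (f : ℕ → ℂ) (v : Fin 4 → ℂ) : ℕ → (Fin 4 → ℂ)
  | 0 => v
  | (k + 1) => LA (w f v k) - f k • w f v k

theorem w_apply (f : ℕ → ℂ) (v : Fin 4 → ℂ) (k : ℕ) (j : Fin 4) :
    w f v k j = (∏ i ∈ Finset.range k, (th j - f i)) * v j := by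
  induction k with
  | zero => simp [w]
  | succ k ih =>
    have hLA : ∀ u : Fin 4 → ℂ, LA u j = th j * u j := by
      intro u
      fin_cases j <;> simp [LA_apply, th]
    rw [w, Pi.sub_apply, Pi.smul_apply, hLA, ih, Finset.prod_range_succ, smul_eq_mul]
    ring

theorem split (K K' : Module.End ℂ (Fin 4 → ℂ)) (hK' : K' * K = 1) (a a' c b b' d : ℂ)
    (h1 : (2 : ℂ) • (LA * K) - (2 : ℂ)⁻¹ • (K * LA)
      = ((2 : ℂ) - (2 : ℂ)⁻¹) • (a • 1 + a' • (K * K) + c • K))
    (h2 : (2 : ℂ) • (K * LB) - (2 : ℂ)⁻¹ • (LB * K)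
      = ((2 : ℂ) - (2 : ℂ)⁻¹) • (b' • 1 + b • (K * K) + d • K)) :
    (a ≠ 0 ∧ a' = 0 ∧ c = 0) ∨ (a = 0 ∧ a' ≠ 0 ∧ c = 0) := by
  -- eigenvalue of minimal norm
  obtain ⟨κ, hκ, hmin⟩ := Set.exists_min_image {μ | K.HasEigenvalue μ} (fun μ => ‖μ‖)
    K.finite_hasEigenvalue (Module.End.exists_eigenvalue K)
  obtain ⟨v, hv⟩ := hκ.exists_hasEigenvector
  have hv0 : v ≠ 0 := hv.2
  have hKv : K v = κ • v := hv.apply_eq_smul
  have hκ0 : κ ≠ 0 := by
    rintro rfl
    apply hv0
    have h3 := congrArg K' hKv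
    rw [zero_smul, map_zero] at h3
    have h4 : (K' * K) v = v := by rw [hK']; rfl
    rw [← h4]; exact h3
  have h1' : ∀ u : Fin 4 → ℂ, (2 : ℂ) • LA (K u) - (2 : ℂ)⁻¹ • K (LA u)
      = ((2 : ℂ) - (2 : ℂ)⁻¹) • (a • u + a' • K (K u) + c • K u) := by
    intro u
    have := LinearMap.congr_fun h1 u
    simpa using this
  have h2' : ∀ u : Fin 4 → ℂ, (2 : ℂ) • K (LB u) - (2 : ℂ)⁻¹ • LB (K u)
      = ((2 : ℂ) - (2 : ℂ)⁻¹) • (b' • u + b • K (K u) + d • K u) := by
    intro u
    have := LinearMap.congr_fun h2 u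
    simpa using this
  -- v is an eigenvector of LB
  set g : ℂ := b * κ + b' / κ + d with hg
  have hLv : LB v = g • v := by
    have h3 := h2' v
    rw [hKv, map_smul, map_smul, hKv] at h3
    have h4 : K (LB v - g • v) = (κ / 4) • (LB v - g • v) := by
      rw [map_sub, map_smul, hKv]
      have h5 : K (LB v) = (2 : ℂ)⁻¹ • ((2 : ℂ)⁻¹ • κ • LB v
          + ((2 : ℂ) - (2 : ℂ)⁻¹) • (b' • v + b • κ • κ • v + d • κ • v)) := by
        rw [← h3]
        module
      rw [h5, hg]
      match_scalars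
      · ring
      · field_simp; ring
    by_contra hne
    have h5 : LB v - g • v ≠ 0 := sub_ne_zero.mpr hne
    have h6 : K.HasEigenvalue (κ / 4) := Module.End.hasEigenvalue_of_hasEigenvector
      (x := LB v - g • v) ⟨by rw [Module.End.mem_eigenspace_iff]; exact h4, h5⟩
    have h7 := hmin _ h6
    have h8 : 0 < ‖κ‖ := norm_pos_iff.mpr hκ0
    simp only [norm_div] at h7
    norm_num at h7
    linarith
  have hvne := eig_ne v hv0 g hLv
  -- the chain
  set f : ℕ → ℂ := fun k => a / (κ * 4 ^ k) + a' * (κ * 4 ^ k) + c with hf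
  have hKw : ∀ k, K (w f v k) = (κ * 4 ^ k) • w f v k := by
    intro k
    induction k with
    | zero => simp [w, hKv]
    | succ k ih =>
      have h3 := h1' (w f v k)
      rw [ih, map_smul, map_smul, ih] at h3
      have hk0 : κ * 4 ^ k ≠ 0 := mul_ne_zero hκ0 (pow_ne_zero _ (by norm_num))
      have h5 : K (LA (w f v k)) = (2 : ℂ) • ((2 : ℂ) • (κ * 4 ^ k) • LA (w f v k)
          - ((2 : ℂ) - (2 : ℂ)⁻¹) • (a • w f v k + a' • (κ * 4 ^ k) • (κ * 4 ^ k) • w f v k
            + c • (κ * 4 ^ k) • w f v k)) := by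
        rw [← h3]
        module
      rw [w, map_sub, map_smul, ih, h5]
      have hfk : f k = a / (κ * 4 ^ k) + a' * (κ * 4 ^ k) + c := rfl
      rw [hfk, pow_succ]
      match_scalars
      · ring
      · field_simp; ring
  have hcoord := w_apply f v
  have hw4 : w f v 4 = 0 := by
    by_contra hne
    have hall : ∀ k : Fin 5, w f v (k : ℕ) ≠ 0 := by
      intro k hk
      apply hne
      ext j
      have h3 := congrFun hk j
      rw [hcoord, Pi.zero_apply] at h3
      rw [hcoord, Pi.zero_apply]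
      rcases mul_eq_zero.mp h3 with h4 | h4
      · rw [Finset.prod_eq_zero_iff] at h4
        obtain ⟨i, hi, hi'⟩ := h4
        rw [Finset.mem_range] at hi
        rw [Finset.prod_eq_zero (i := i) _ hi', zero_mul]
        rw [Finset.mem_range]
        omega
      · rw [h4, mul_zero]
    have hli : LinearIndependent ℂ (fun k : Fin 5 => w f v (k : ℕ)) := by
      apply Module.End.eigenvectors_linearIndependent' K (fun k : Fin 5 => κ * 4 ^ (k : ℕ))
      · intro i j hij
        simp only at hij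
        have h3 := mul_left_cancel₀ hκ0 hij
        have h4 : (4 : ℕ) ^ (i : ℕ) = 4 ^ (j : ℕ) := by exact_mod_cast h3
        have h5 := Nat.pow_right_injective (le_refl 2 |>.trans (by norm_num : 2 ≤ 4)) h4
        exact Fin.ext h5
      · intro k
        exact ⟨by rw [Module.End.mem_eigenspace_iff]; exact hKw k, hall k⟩
    have h3 := hli.fintype_card_le_finrank
    simp at h3
  have hprod : ∀ j : Fin 4, ∃ i : Fin 4, f (i : ℕ) = th j := by
    intro j
    have h3 := congrFun hw4 j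
    rw [hcoord, Pi.zero_apply] at h3
    rcases mul_eq_zero.mp h3 with h4 | h4
    · rw [Finset.prod_eq_zero_iff] at h4
      obtain ⟨i, hi, hi'⟩ := h4
      rw [Finset.mem_range] at hi
      exact ⟨⟨i, hi⟩, (sub_eq_zero.mp hi').symm⟩
    · exact absurd h4 (hvne j)
  have hF := F_cases (fun i : Fin 4 => f (i : ℕ)) (by
    simp only [hf]
    norm_num
    field_simp
    ring) hprod
  simp only [hf] at hF
  norm_num at hF
  rcases hF with ⟨q0, q1, q2, q3⟩ | ⟨q0, q1, q2, q3⟩
  · left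
    have p1 : a / (κ * 4) = a / κ / 4 := by field_simp
    have p2 : a / (κ * 16) = a / κ / 16 := by field_simp
    rw [p1] at q1
    rw [p2] at q2
    have hR : a' * κ = 0 := by
      linear_combination (1 / 3 * (1/15)) * (q0 - q1 - 4 * (q1 - q2))
    have ha' : a' = 0 := by
      rcases mul_eq_zero.mp hR with h | h
      · exact h
      · exact absurd h hκ0
    have hP : a / κ = 64 := by
      linear_combination (4 / 3) * (q0 - q1) + 4 * hR
    refine ⟨?_, ha', ?_⟩
    · rintro rfl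
      rw [zero_div] at hP
      norm_num at hP
    · linear_combination q0 - hP - hR
  · right
    have p1 : a / (κ * 4) = a / κ / 4 := by field_simp
    have p2 : a / (κ * 16) = a / κ / 16 := by field_simp
    rw [p1] at q1
    rw [p2] at q2
    have hP : a / κ = 0 := by
      linear_combination (4 / 3 * (16 / 15)) * (q0 - q1 - (1 / 4) * (q1 - q2))
    have hR : a' * κ = 1 := by
      linear_combination (-1 / 3) * (q0 - q1) + (1 / 4) * hP
    have ha : a = 0 := by
      rcases div_eq_zero_iff.mp hP with h | h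
      · exact h
      · exact absurd h hκ0
    refine ⟨ha, ?_, ?_⟩
    · rintro rfl
      rw [zero_mul] at hR
      norm_num at hR
    · linear_combination q0 - hP - hR

end Pool.Agent.H47.QTetra
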