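import Mathlib

set_option autoImplicit false

namespace Pool.Agent.H47.QTetra

open Module

/-- Eigenvalues of `A`. -/
def th : Fin 4 → ℂ := ![64, 16, 4, 1]

/-- Eigenvalues of `As`. -/
def ths : Fin 4 → ℂ := ![-21, -4, 4, 21]

/-- The matrix of `A`. -/
def MA : Matrix (Fin 4) (Fin 4) ℂ := !![64, 0, 0, 0; 0, 16, 0, 0; 0, 0, 4, 0; 0, 0, 0, 1]

/-- The matrix of `As`. -/
def MB : Matrix (Fin 4) (Fin 4) ℂ := !![0, 1, 0, 0; 21, 0, 5, 0; 0, 20, 0, 21; 0, 0, 16, 0]

/-- The map `A`. -/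
noncomputable def LA : Module.End ℂ (Fin 4 → ℂ) := Matrix.toLin' MA

/-- The map `As`. -/
noncomputable def LB : Module.End ℂ (Fin 4 → ℂ) := Matrix.toLin' MB

theorem LA_apply (v : Fin 4 → ℂ) : LA v = ![64 * v 0, 16 * v 1, 4 * v 2, v 3] := by
  ext i
  fin_cases i <;> simp [LA, MA, Matrix.toLin'_apply, Matrix.mulVec, dotProduct, Fin.sum_univ_four]

theorem LB_apply (v : Fin 4 → ℂ) :
    LB v = ![v 1, 21 * v 0 + 5 * v 2, 20 * v 1 + 21 * v 3, 16 * v 2] := by
  ext i
  fin_cases i <;> simp [LB, MB, Matrix.toLin'_apply, Matrix.mulVec, dotProduct, Fin.sum_univ_four]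

theorem th_inj : Function.Injective th := by
  intro i j h
  fin_cases i <;> fin_cases j <;> simp [th] at h ⊢

theorem ths_inj : Function.Injective ths := by
  intro i j h
  fin_cases i <;> fin_cases j <;> simp [ths] at h ⊢ <;> norm_num at h

/-- Tridiagonal action from an explicit eigenbasis. -/
theorem tri_of_basis (b : Basis (Fin 4) ℂ (Fin 4 → ℂ)) (T S : Module.End ℂ (Fin 4 → ℂ))
    (t : Fin 4 → ℂ) (ht : Function.Injective t) (hT : ∀ i, T (b i) = t i • b i)
    (hS : ∀ i : Fin 4, ∃ c : Fin 4 → ℂ, S (b i) = ∑ j, c j • b j ∧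
      ∀ j : Fin 4, ¬ ((j : ℕ) ≤ (i : ℕ) + 1 ∧ (i : ℕ) ≤ (j : ℕ) + 1) → c j = 0) :
    ∃ d : ℕ, ∃ θ : Fin (d + 1) → ℂ, Function.Injective θ ∧
        (∀ i, Module.End.eigenspace T (θ i) ≠ ⊥) ∧
        (⨆ i, Module.End.eigenspace T (θ i)) = ⊤ ∧
        ∀ i : Fin (d + 1), Submodule.map S (Module.End.eigenspace T (θ i)) ≤
          ⨆ (j : Fin (d + 1)) (_ : (j : ℕ) ≤ (i : ℕ) + 1 ∧ (i : ℕ) ≤ (j : ℕ) + 1),
            Module.End.eigenspace T (θ j) := by
  have hmem : ∀ i, b i ∈ Module.End.eigenspace T (t i) := fun i => by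
    rw [Module.End.mem_eigenspace_iff]; exact hT i
  refine ⟨3, t, ht, ?_, ?_, ?_⟩
  · intro i h
    have := hmem i
    rw [h, Submodule.mem_bot] at this
    exact b.ne_zero i this
  · rw [eq_top_iff, ← b.span_eq, Submodule.span_le]
    rintro _ ⟨i, rfl⟩
    exact (le_iSup (fun i => Module.End.eigenspace T (t i)) i) (hmem i)
  · intro i
    rintro _ ⟨v, hv, rfl⟩
    -- v is a multiple of b i
    have hv' : T v = t i • v := by
      rwa [SetLike.mem_coe, Module.End.mem_eigenspace_iff] at hv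
    have hrep : ∀ j, b.repr (T v) j = t j * b.repr v j := by
      intro j
      have h1 : v = ∑ k, b.repr v k • b k := (b.sum_repr v).symm
      conv_lhs => rw [h1]
      simp only [map_sum, map_smul, hT, smul_smul]
      simp only [Finsupp.coe_finsetSum, Finsupp.coe_smul, Finset.sum_apply, Pi.smul_apply,
        Basis.repr_self, smul_eq_mul]
      rw [Finset.sum_eq_single j]
      · simp; ring
      · intro k _ hk
        rw [Finsupp.single_eq_of_ne (by exact fun h => hk h.symm)]; simp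
      · intro h; exact absurd (Finset.mem_univ j) h
    have hz : ∀ j, j ≠ i → b.repr v j = 0 := by
      intro j hj
      have h2 := hrep j
      rw [hv', map_smul, Finsupp.smul_apply, smul_eq_mul] at h2
      have h3 : (t i - t j) * b.repr v j = 0 := by linear_combination h2
      rcases mul_eq_zero.mp h3 with h4 | h4
      · exact absurd (ht (sub_eq_zero.mp h4)).symm hj
      · exact h4
    have hvb : v = b.repr v i • b i := by
      conv_lhs => rw [← b.sum_repr v]
      rw [Finset.sum_eq_single i]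
      · intro k _ hk; rw [hz k hk, zero_smul]
      · intro h; exact absurd (Finset.mem_univ i) h
    obtain ⟨c, hc, hc0⟩ := hS i
    rw [hvb, map_smul, hc]
    apply Submodule.smul_mem
    apply Submodule.sum_mem
    intro j _
    by_cases hj : ((j : ℕ) ≤ (i : ℕ) + 1 ∧ (i : ℕ) ≤ (j : ℕ) + 1)
    · apply Submodule.smul_mem
      exact (le_iSup₂_of_le (f := fun (j : Fin 4)
        (_ : (j : ℕ) ≤ (i : ℕ) + 1 ∧ (i : ℕ) ≤ (j : ℕ) + 1) =>
            Module.End.eigenspace T (t j)) j hj le_rfl) (hmem j)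
    · rw [hc0 j hj, zero_smul]; exact Submodule.zero_mem _

theorem pair_A :
    ∃ d : ℕ, ∃ θ : Fin (d + 1) → ℂ, Function.Injective θ ∧
        (∀ i, Module.End.eigenspace LA (θ i) ≠ ⊥) ∧
        (⨆ i, Module.End.eigenspace LA (θ i)) = ⊤ ∧
        ∀ i : Fin (d + 1), Submodule.map LB (Module.End.eigenspace LA (θ i)) ≤
          ⨆ (j : Fin (d + 1)) (_ : (j : ℕ) ≤ (i : ℕ) + 1 ∧ (i : ℕ) ≤ (j : ℕ) + 1),
            Module.End.eigenspace LA (θ j) := by
  apply tri_of_basis (Pi.basisFun ℂ (Fin 4)) LA LB th th_inj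
  · intro i
    ext j
    fin_cases i <;> fin_cases j <;> simp [LA_apply, th, Pi.single_apply]
  · intro i
    refine ⟨fun j => MB j i, ?_, ?_⟩
    · ext j
      fin_cases i <;> fin_cases j <;>
        simp [LB_apply, MB, Pi.single_apply, Fin.sum_univ_four]
    · intro j hj
      fin_cases i <;> fin_cases j <;> simp [MB] at hj ⊢

/-- Eigenvectors of `As`. -/
def sv : Fin 4 → Fin 4 → ℂ := ![![1, -21, 84, -64], ![1, -4, -1, 4], ![1, 4, -1, -4],
  ![1, 21, 84, 64]]

theorem LB_sv (i : Fin 4) : LB (sv i) = ths i • sv i := by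
  ext j
  fin_cases i <;> fin_cases j <;> simp [LB_apply, sv, ths] <;> norm_num

theorem sv_ne (i : Fin 4) : sv i ≠ 0 := by
  intro h
  have := congrFun h 0
  fin_cases i <;> simp [sv] at this

theorem sv_li : LinearIndependent ℂ sv := by
  apply Module.End.eigenvectors_linearIndependent' LB ths ths_inj
  intro i
  exact ⟨by rw [Module.End.mem_eigenspace_iff]; exact LB_sv i, sv_ne i⟩

/-- The eigenbasis of `As`. -/
noncomputable def sb : Basis (Fin 4) ℂ (Fin 4 → ℂ) :=
  basisOfLinearIndependentOfCardEqFinrank sv_li (by simp)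

theorem sb_apply (i : Fin 4) : sb i = sv i := by
  simp [sb]

/-- Coefficients of `A` in the eigenbasis of `As` -/
noncomputable def ca : Fin 4 → Fin 4 → ℂ := ![![80 / 17, 1008 / 17, 0, 0],
  ![12 / 17, 1285 / 34, 51 / 2, 0], ![0, 51 / 2, 1285 / 34, 12 / 17], ![0, 0, 1008 / 17, 80 / 17]]

theorem pair_B :
    ∃ d : ℕ, ∃ θ : Fin (d + 1) → ℂ, Function.Injective θ ∧
        (∀ i, Module.End.eigenspace LB (θ i) ≠ ⊥) ∧
        (⨆ i, Module.End.eigenspace LB (θ i)) = ⊤ ∧
        ∀ i : Fin (d + 1), Submodule.map LA (Module.End.eigenspace LB (θ i)) ≤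
          ⨆ (j : Fin (d + 1)) (_ : (j : ℕ) ≤ (i : ℕ) + 1 ∧ (i : ℕ) ≤ (j : ℕ) + 1),
            Module.End.eigenspace LB (θ j) := by
  apply tri_of_basis sb LB LA ths ths_inj
  · intro i
    rw [sb_apply]; exact LB_sv i
  · intro i
    refine ⟨ca i, ?_, ?_⟩
    · simp only [sb_apply]
      ext j
      fin_cases i <;> fin_cases j <;>
        simp [LA_apply, ca, sv, Fin.sum_univ_four] <;> norm_num
    · intro j hj
      fin_cases i <;> fin_cases j <;> simp [ca] at hj ⊢

theorem irred (W : Submodule ℂ (Fin 4 → ℂ)) (hA : ∀ v ∈ W, LA v ∈ W) (hB : ∀ v ∈ W, LB v ∈ W) :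
    W = ⊥ ∨ W = ⊤ := by
  by_cases hW : W = ⊥
  · exact Or.inl hW
  right
  obtain ⟨w, hw, hw0⟩ := (Submodule.ne_bot_iff W).mp hW
  have hp : ∀ c : ℂ, ∀ v ∈ W,
      (![(64 - c) * v 0, (16 - c) * v 1, (4 - c) * v 2, (1 - c) * v 3] : Fin 4 → ℂ) ∈ W := by
    intro c v hv
    have h := W.sub_mem (hA v hv) (W.smul_mem c hv)
    convert h using 1
    ext j
    fin_cases j <;> simp [LA_apply] <;> ring
  have key : ∀ v ∈ W, ∀ i, v i • (Pi.single i (1 : ℂ) : Fin 4 → ℂ) ∈ W := by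
    intro v hv i
    fin_cases i
    · have h := W.smul_mem (1 / (48 * 60 * 63) : ℂ) (hp 16 _ (hp 4 _ (hp 1 v hv)))
      convert h using 1
      ext j
      fin_cases j <;> simp <;> ring
    · have h := W.smul_mem (1 / (-48 * 12 * 15) : ℂ) (hp 64 _ (hp 4 _ (hp 1 v hv)))
      convert h using 1
      ext j
      fin_cases j <;> simp <;> ring
    · have h := W.smul_mem (1 / (60 * 12 * 3) : ℂ) (hp 64 _ (hp 16 _ (hp 1 v hv)))
      convert h using 1
      ext j
      fin_cases j <;> simp <;> ring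
    · have h := W.smul_mem (1 / (-63 * 15 * 3) : ℂ) (hp 64 _ (hp 16 _ (hp 4 v hv)))
      convert h using 1
      ext j
      fin_cases j <;> simp <;> ring
  have key2 : ∀ v ∈ W, ∀ i, v i ≠ 0 → (Pi.single i (1 : ℂ) : Fin 4 → ℂ) ∈ W := by
    intro v hv i hi
    have h := W.smul_mem (v i)⁻¹ (key v hv i)
    rwa [smul_smul, inv_mul_cancel₀ hi, one_smul] at h
  have step : ∀ i j : Fin 4, (LB (Pi.single i (1 : ℂ) : Fin 4 → ℂ)) j ≠ 0 →
      (Pi.single i (1 : ℂ) : Fin 4 → ℂ) ∈ W → (Pi.single j (1 : ℂ) : Fin 4 → ℂ) ∈ W := by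
    intro i j h hi
    exact key2 _ (hB _ hi) j h
  have h01 := step 0 1 (by simp [LB_apply])
  have h12 := step 1 2 (by simp [LB_apply])
  have h23 := step 2 3 (by simp [LB_apply])
  have h10 := step 1 0 (by simp [LB_apply])
  have h21 := step 2 1 (by simp [LB_apply])
  have h32 := step 3 2 (by simp [LB_apply])
  have hex : ∃ i, w i ≠ 0 := by
    by_contra h
    push Not at h
    exact hw0 (funext h)
  obtain ⟨i, hi⟩ := hex
  have hi' := key2 w hw i hi
  have h0 : (Pi.single 0 (1 : ℂ) : Fin 4 → ℂ) ∈ W := by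
    fin_cases i
    · exact hi'
    · exact h10 hi'
    · exact h10 (h21 hi')
    · exact h10 (h21 (h32 hi'))
  have h1 := h01 h0
  have h2 := h12 h1
  have h3 := h23 h2
  rw [eq_top_iff]
  intro v _
  have hv : v = ∑ i, v i • (Pi.single i (1 : ℂ) : Fin 4 → ℂ) := by
    ext j
    fin_cases j <;> simp [Fin.sum_univ_four, Pi.single_apply]
  rw [hv]
  apply Submodule.sum_mem
  intro j _
  apply Submodule.smul_mem
  fin_cases j
  · exact h0
  · exact h1
  · exact h2
  · exact h3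

theorem td_rel :
    ∃ γ γs ϱ ϱs : ℂ,
        LA * (LA ^ 2 * LB - ((2 : ℂ) ^ 2 + (2 : ℂ)⁻¹ ^ 2) • (LA * LB * LA) + LB * LA ^ 2
              - γ • (LA * LB + LB * LA) - ϱ • LB)
          = (LA ^ 2 * LB - ((2 : ℂ) ^ 2 + (2 : ℂ)⁻¹ ^ 2) • (LA * LB * LA) + LB * LA ^ 2
              - γ • (LA * LB + LB * LA) - ϱ • LB) * LA ∧
        LB * (LB ^ 2 * LA - ((2 : ℂ) ^ 2 + (2 : ℂ)⁻¹ ^ 2) • (LB * LA * LB) + LA * LB ^ 2
              - γs • (LA * LB + LB * LA) - ϱs • LA)
          = (LB ^ 2 * LA - ((2 : ℂ) ^ 2 + (2 : ℂ)⁻¹ ^ 2) • (LB * LA * LB) + LA * LB ^ 2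
              - γs • (LA * LB + LB * LA) - ϱs • LA) * LB := by
  refine ⟨0, 0, 0, 100, ?_, ?_⟩
  · apply LinearMap.ext
    intro v
    simp only [pow_two, Module.End.mul_apply, LinearMap.sub_apply, LinearMap.add_apply,
      LinearMap.smul_apply]
    ext j
    fin_cases j <;> simp [LA_apply, LB_apply] <;> ring
  · apply LinearMap.ext
    intro v
    simp only [pow_two, Module.End.mul_apply, LinearMap.sub_apply, LinearMap.add_apply,
      LinearMap.smul_apply]
    ext j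
    fin_cases j <;> simp [LA_apply, LB_apply] <;> ring

end Pool.Agent.H47.QTetra
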